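import Mathlib

/-!
# A perfect set containing all finite patterns and supporting no measure with decaying Fourier
transform
-/

namespace Pool.Agent.Results.MP_701998_an.PatternsNoRajchman

open MeasureTheory Filter Topology Set

noncomputable section

/-- the frequencies -/
def n (k : ℕ) : ℝ := 4 ^ ((k + 1) ^ 2)

/-- the set: `n k * x` is within `1/4` of the integers for all `k` -/
def E : Set ℝ := {x | ∀ k : ℕ, ∃ m : ℤ, |n k * x - m| ≤ 1 / 4}

lemma n_pos (k : ℕ) : 0 < n k := by unfold n; positivity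

lemma n_add (k r : ℕ) : n (k + r) = n k * 4 ^ (r * (2 * k + 2 + r)) := by
  unfold n; rw [← pow_add]; congr 1; ring

lemma n_succ (k : ℕ) : n (k + 1) = n k * 4 ^ (2 * k + 3) := by
  rw [n_add]; congr 2; ring

lemma n_ratio {j k : ℕ} (h : j < k) : n j * 64 ≤ n k := by
  obtain ⟨r, rfl⟩ := Nat.exists_eq_add_of_lt h
  rw [show j + r + 1 = j + (r + 1) by ring, n_add]
  have h1 : (4 : ℝ) ^ 3 ≤ 4 ^ ((r + 1) * (2 * j + 2 + (r + 1))) := by
    apply pow_le_pow_right₀ (by norm_num)
    nlinarith [Nat.zero_le (r * (2 * j)), Nat.zero_le r]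
  have := n_pos j
  nlinarith

/-- for `j < k`, `n k / n j` is an integer divisible by four -/
lemma n_int {j k : ℕ} (h : j < k) : ∃ q : ℤ, n k = n j * (4 * q) := by
  obtain ⟨r, rfl⟩ := Nat.exists_eq_add_of_lt h
  refine ⟨4 ^ ((r + 1) * (2 * j + 2 + (r + 1)) - 1), ?_⟩
  rw [show j + r + 1 = j + (r + 1) by ring, n_add]
  push_cast
  rw [← pow_succ']
  have : 0 < (r + 1) * (2 * j + 2 + (r + 1)) := by positivity
  congr 2

lemma E_closed : IsClosed E := by
  have h : E = ⋂ k : ℕ, {x : ℝ | ‖((n k * x : ℝ) : UnitAddCircle)‖ ≤ 1 / 4} := by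
    ext x
    simp only [E, mem_ofPred_eq, mem_iInter]
    refine forall_congr' fun k => ?_
    rw [UnitAddCircle.norm_eq]
    constructor
    · rintro ⟨m, hm⟩
      exact (round_le _ m).trans hm
    · intro h
      exact ⟨_, h⟩
  rw [h]
  refine isClosed_iInter fun k => isClosed_le ?_ continuous_const
  exact continuous_norm.comp ((AddCircle.continuous_mk' 1).comp (continuous_const.mul continuous_id))

lemma step {x : ℝ} (hx : x ∈ E) (K : ℕ) : x + 1 / n K ∈ E ∨ x - 1 / n K ∈ E := by
  by_contra hcon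
  push Not at hcon
  obtain ⟨h1, h2⟩ := hcon
  simp only [E, mem_ofPred_eq, not_forall, not_exists, not_le] at h1 h2
  obtain ⟨j, hj⟩ := h1
  obtain ⟨k, hk⟩ := h2
  obtain ⟨a, ha⟩ := hx j
  obtain ⟨b, hb⟩ := hx k
  rw [abs_le] at ha hb
  have hK := n_pos K
  have hjp := n_pos j
  have hkp := n_pos k
  have hjK : j < K := by
    by_contra hcon
    push Not at hcon
    obtain ⟨q, hq⟩ : ∃ q : ℤ, n j = n K * q := by
      rcases eq_or_lt_of_le hcon with h | h
      · exact ⟨1, by rw [h]; simp⟩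
      · obtain ⟨q, hq⟩ := n_int h
        exact ⟨4 * q, by rw [hq]; push_cast; ring⟩
    have h3 := hj (a + q)
    have h4 : n j * (x + 1 / n K) - ((a + q : ℤ) : ℝ) = n j * x - a := by
      push_cast; rw [mul_add]; nth_rewrite 2 [hq]; field_simp; ring
    rw [h4] at h3
    have := abs_le.2 ha
    linarith
  have hkK : k < K := by
    by_contra hcon
    push Not at hcon
    obtain ⟨q, hq⟩ : ∃ q : ℤ, n k = n K * q := by
      rcases eq_or_lt_of_le hcon with h | h
      · exact ⟨1, by rw [h]; simp⟩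
      · obtain ⟨q, hq⟩ := n_int h
        exact ⟨4 * q, by rw [hq]; push_cast; ring⟩
    have h3 := hk (b - q)
    have h4 : n k * (x - 1 / n K) - ((b - q : ℤ) : ℝ) = n k * x - b := by
      push_cast; rw [mul_sub]; nth_rewrite 2 [hq]; field_simp; ring
    rw [h4] at h3
    have := abs_le.2 hb
    linarith
  have r1 := n_ratio hjK
  have r2 := n_ratio hkK
  have s1 : n j / n K ≤ 1 / 64 := by rw [div_le_iff₀ hK]; linarith
  have s2 : n k / n K ≤ 1 / 64 := by rw [div_le_iff₀ hK]; linarith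
  have t1 : 0 < n j / n K := by positivity
  have t2 : 0 < n k / n K := by positivity
  have u1 : 1 / 4 < n j * x - a + n j / n K := by
    have h3 := hj a
    have h4 : n j * (x + 1 / n K) - a = n j * x - a + n j / n K := by ring
    rw [h4] at h3
    rcases lt_abs.1 h3 with h5 | h5
    · exact h5
    · linarith
  have u2 : n k * x - b - n k / n K < - (1 / 4) := by
    have h3 := hk b
    have h4 : n k * (x - 1 / n K) - b = n k * x - b - n k / n K := by ring
    rw [h4] at h3
    rcases lt_abs.1 h3 with h5 | h5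
    · linarith
    · linarith
  rcases lt_trichotomy j k with h | h | h
  · obtain ⟨q, hq⟩ := n_int h
    -- n k * x is close to the integer q * (4 a + 1)
    have e1 : n k * x - (q * (4 * a + 1) : ℤ) = 4 * q * (n j * x - a - 1 / 4) := by
      rw [hq]; push_cast; ring
    have hq0 : (0 : ℝ) < 4 * q := by
      have : 0 < n j * (4 * q) := by rw [← hq]; exact hkp
      exact (mul_pos_iff_of_pos_left hjp).1 this
    have e2 : 4 * (q : ℝ) * (n j / n K) = n k / n K := by rw [hq]; ring
    have e3 : - (n k / n K) < n k * x - (q * (4 * a + 1) : ℤ) := by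
      rw [e1, ← e2]
      nlinarith
    have e4 : n k * x - (q * (4 * a + 1) : ℤ) ≤ 0 := by
      rw [e1]; nlinarith [ha.2]
    -- contradiction with n k * x close to b - 1/4
    set Z : ℤ := q * (4 * a + 1) with hZ
    have c1 : ((b - Z : ℤ) : ℝ) < 1 := by push_cast; linarith [hb.1, hb.2]
    have c2 : (0 : ℝ) < ((b - Z : ℤ) : ℝ) := by push_cast; linarith [hb.1, hb.2]
    have c1' : b - Z < 1 := by exact_mod_cast c1
    have c2' : 0 < b - Z := by exact_mod_cast c2
    omega
  · subst h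
    have c1 : ((a - b : ℤ) : ℝ) < 1 := by push_cast; linarith [hb.1, hb.2, ha.1, ha.2]
    have c2 : (-1 : ℝ) < ((a - b : ℤ) : ℝ) := by push_cast; linarith [hb.1, hb.2, ha.1, ha.2]
    have c1' : a - b < 1 := by exact_mod_cast c1
    have c2' : -1 < a - b := by exact_mod_cast c2
    have hab : a = b := by omega
    subst hab
    linarith
  · obtain ⟨q, hq⟩ := n_int h
    have e1 : n j * x - (q * (4 * b - 1) : ℤ) = 4 * q * (n k * x - b + 1 / 4) := by
      rw [hq]; push_cast; ring
    have hq0 : (0 : ℝ) < 4 * q := by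
      have : 0 < n k * (4 * q) := by rw [← hq]; exact hjp
      exact (mul_pos_iff_of_pos_left hkp).1 this
    have e2 : 4 * (q : ℝ) * (n k / n K) = n j / n K := by rw [hq]; ring
    have e3 : n j * x - (q * (4 * b - 1) : ℤ) < n j / n K := by
      rw [e1, ← e2]
      nlinarith
    have e4 : 0 ≤ n j * x - (q * (4 * b - 1) : ℤ) := by
      rw [e1]; nlinarith [hb.1]
    set Z : ℤ := q * (4 * b - 1) with hZ
    have c1 : ((Z - a : ℤ) : ℝ) < 1 := by push_cast; linarith [ha.1, ha.2]
    have c2 : (0 : ℝ) < ((Z - a : ℤ) : ℝ) := by push_cast; linarith [ha.1, ha.2]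
    have c1' : Z - a < 1 := by exact_mod_cast c1
    have c2' : 0 < Z - a := by exact_mod_cast c2
    omega

lemma n_ge (k : ℕ) : (4 : ℝ) ^ k ≤ n k := by
  unfold n
  apply pow_le_pow_right₀ (by norm_num)
  nlinarith

lemma n_tendsto : Tendsto n atTop atTop :=
  tendsto_atTop_mono n_ge (tendsto_pow_atTop_atTop_of_one_lt (by norm_num))

lemma E_perfect : Perfect E := by
  refine ⟨E_closed, ?_⟩
  intro x hx
  rw [accPt_iff_frequently]
  rw [frequently_iff]
  intro U hU
  obtain ⟨ε, hε, hball⟩ := Metric.mem_nhds_iff.1 hU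
  have h1 : Tendsto (fun K => 1 / n K) atTop (𝓝 0) := by
    simp only [one_div]
    exact n_tendsto.inv_tendsto_atTop
  obtain ⟨K, hK⟩ := ((tendsto_order.1 h1).2 ε hε).exists
  have hpos : 0 < 1 / n K := by have := n_pos K; positivity
  rcases step hx K with h | h
  · refine ⟨x + 1 / n K, hball ?_, ?_, h⟩
    · rw [Metric.mem_ball, Real.dist_eq]; simpa [abs_of_pos (n_pos K)] using hK
    · intro he; linarith
  · refine ⟨x - 1 / n K, hball ?_, ?_, h⟩
    · rw [Metric.mem_ball, Real.dist_eq]; simpa [abs_of_pos (n_pos K)] using hK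
    · intro he; linarith

/-! ### patterns -/

/-- recurrence: all real multiples of a finite set return close to the integers within a bounded
time -/
lemma recurrence (F : Set ℝ) (hF : F.Finite) : ∃ (L : ℝ) (r : ℝ → ℝ), 0 ≤ L ∧
    (∀ s, |r s| ≤ L) ∧ ∀ s, ∀ x ∈ F, ∃ m : ℤ, |(s + r s) * x - m| ≤ 1 / 8 := by
  classical
  have : Finite F := hF
  let cl : ℝ → F → Fin 8 := fun u x =>
    ⟨(⌊8 * Int.fract (u * x)⌋).toNat, by
      have h1 := Int.fract_nonneg (u * (x : ℝ))
      have h2 := Int.fract_lt_one (u * (x : ℝ))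
      have h3 : ⌊8 * Int.fract (u * (x : ℝ))⌋ < 8 := by
        rw [Int.floor_lt]; push_cast; linarith
      omega⟩
  have hfin : (range cl).Finite := Set.toFinite _
  let inv : (F → Fin 8) → ℝ := Function.invFun cl
  have hT : (inv '' range cl).Finite := hfin.image _
  obtain ⟨L, hL⟩ := (hT.isBounded).exists_norm_le
  refine ⟨max L 0, fun s => - inv (cl s), le_max_right _ _, fun s => ?_, fun s x hx => ?_⟩
  · rw [abs_neg]
    exact (hL _ ⟨cl s, mem_range_self _, rfl⟩).trans (le_max_left _ _)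
  · have hinv : cl (inv (cl s)) = cl s := Function.invFun_eq ⟨s, rfl⟩
    set u := inv (cl s) with hu
    have h1 := congrFun hinv ⟨x, hx⟩
    have h2 : (⌊8 * Int.fract (u * x)⌋).toNat = (⌊8 * Int.fract (s * x)⌋).toNat :=
      congrArg Fin.val h1
    have a1 : 0 ≤ ⌊8 * Int.fract (u * x)⌋ :=
      Int.floor_nonneg.2 (by have := Int.fract_nonneg (u * x); positivity)
    have a2 : 0 ≤ ⌊8 * Int.fract (s * x)⌋ :=
      Int.floor_nonneg.2 (by have := Int.fract_nonneg (s * x); positivity)
    have h3 : ⌊8 * Int.fract (u * x)⌋ = ⌊8 * Int.fract (s * x)⌋ := by omega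
    have h4 := Int.abs_sub_lt_one_of_floor_eq_floor h3
    refine ⟨⌊s * x⌋ - ⌊u * x⌋, ?_⟩
    have e : (s + -u) * x - ((⌊s * x⌋ - ⌊u * x⌋ : ℤ) : ℝ) = Int.fract (s * x) - Int.fract (u * x) := by
      push_cast
      rw [Int.fract, Int.fract]; ring
    rw [e]
    rw [abs_lt] at h4
    rw [abs_le]
    constructor <;> linarith [h4.1, h4.2]

lemma pattern (F : Set ℝ) (hF : F.Finite) : ∃ b : ℝ, b ≠ 0 ∧ ∀ x ∈ F, b * x ∈ E := by
  obtain ⟨L₀, r, hL₀, hr, hrec⟩ := recurrence F hF
  obtain ⟨X₀, hX₀⟩ := hF.isBounded.exists_norm_le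
  obtain ⟨L, hL, hLr⟩ : ∃ L : ℝ, 1 ≤ L ∧ ∀ s, |r s| ≤ L :=
    ⟨L₀ + 1, by linarith, fun s => (hr s).trans (by linarith)⟩
  obtain ⟨X, hX, hXF⟩ : ∃ X : ℝ, 1 ≤ X ∧ ∀ x ∈ F, |x| ≤ X :=
    ⟨|X₀| + 1, by linarith [abs_nonneg X₀], fun x hx =>
      (hX₀ x hx).trans (by linarith [le_abs_self X₀])⟩
  -- the starting index
  obtain ⟨k0, hk0⟩ : ∃ k0 : ℕ, 64 * (L * X) ≤ 4 ^ (2 * k0 + 1) := by
    obtain ⟨k0, hk0⟩ := pow_unbounded_of_one_lt (64 * (L * X)) (by norm_num : (1 : ℝ) < 4)
    refine ⟨k0, hk0.le.trans (pow_le_pow_right₀ (by norm_num) (by omega))⟩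
  have hLX : 1 ≤ L * X := by nlinarith
  -- ratio of frequencies beyond k0
  have hrat : ∀ k, k0 ≤ k → n k * (64 * (L * X)) ≤ n (k + 1) := by
    intro k hk
    rw [n_succ]
    have h1 : (4 : ℝ) ^ (2 * k0 + 1) ≤ 4 ^ (2 * k + 3) :=
      pow_le_pow_right₀ (by norm_num) (by omega)
    exact mul_le_mul_of_nonneg_left (hk0.trans h1) (n_pos k).le
  -- the sequence
  let b : ℕ → ℝ := fun i => Nat.rec (3 * L / n k0)
    (fun i bi => bi + r (n (k0 + i) * bi) / n (k0 + i)) i
  have hb0 : b 0 = 3 * L / n k0 := rfl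
  have hbs : ∀ i, b (i + 1) = b i + r (n (k0 + i) * b i) / n (k0 + i) := fun i => rfl
  have hd : ∀ i, dist (b i) (b (i + 1)) ≤ L / n (k0 + i) := by
    intro i
    rw [dist_comm, Real.dist_eq, hbs, add_sub_cancel_left, abs_div, abs_of_pos (n_pos _)]
    exact div_le_div_of_nonneg_right (hLr _) (n_pos _).le
  have hgeo : ∀ i l, n (k0 + i) * 2 ^ l ≤ n (k0 + (i + l)) := by
    intro i l
    induction l with
    | zero => simp
    | succ l ih =>
      have h1 := n_ratio (show k0 + (i + l) < k0 + (i + (l + 1)) by omega)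
      have h2 := n_pos (k0 + (i + l))
      rw [pow_succ]
      nlinarith
  have hd2 : ∀ i l, dist (b (i + l)) (b (i + (l + 1))) ≤ L / n (k0 + i) / 2 ^ l := by
    intro i l
    refine (hd (i + l)).trans ?_
    rw [div_div]
    apply div_le_div_of_nonneg_left (by linarith) (by have := n_pos (k0 + i); positivity) (hgeo i l)
  have hcau : CauchySeq b := by
    refine cauchySeq_of_le_geometric (1 / 2) (L / n k0) (by norm_num) fun i => ?_
    have := hd2 0 i
    simp only [zero_add, add_zero] at this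
    refine this.trans_eq ?_
    rw [one_div, inv_pow]; rfl
  obtain ⟨β, hβ⟩ := cauchySeq_tendsto_of_complete hcau
  have hdist : ∀ i, dist (b i) β ≤ 2 * (L / n (k0 + i)) := by
    intro i
    have h1 : Tendsto (fun l => b (i + l)) atTop (𝓝 β) := by
      have := (tendsto_add_atTop_iff_nat i).2 hβ
      simpa [add_comm] using this
    have h2 := dist_le_of_le_geometric_of_tendsto₀ (1 / 2) (L / n (k0 + i)) (by norm_num)
      (f := fun l => b (i + l)) (fun l => by
        have := hd2 i l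
        refine this.trans_eq ?_
        rw [one_div, inv_pow]; rfl) h1
    simp only [add_zero] at h2
    refine h2.trans_eq ?_
    ring
  have hn0 := n_pos k0
  have hβ0 : |β - 3 * L / n k0| ≤ 2 * L / n k0 := by
    have := hdist 0
    rw [hb0, dist_comm, Real.dist_eq, add_zero] at this
    refine this.trans_eq (by ring)
  have hβ1 : L / n k0 ≤ β := by
    have h1 := (abs_le.1 hβ0).1
    have h2 : 3 * L / n k0 = L / n k0 + 2 * L / n k0 := by ring
    linarith
  have hβ2 : β ≤ 5 * L / n k0 := by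
    have h1 := (abs_le.1 hβ0).2
    have h2 : 5 * L / n k0 = 3 * L / n k0 + 2 * L / n k0 := by ring
    linarith
  have hβpos : 0 < β := lt_of_lt_of_le (by positivity) hβ1
  refine ⟨β, hβpos.ne', fun x hx k => ?_⟩
  rcases lt_or_ge k k0 with hk | hk
  · -- small frequencies
    refine ⟨0, ?_⟩
    rw [Int.cast_zero, sub_zero, abs_mul, abs_mul, abs_of_pos (n_pos k), abs_of_pos hβpos]
    obtain ⟨k1, rfl⟩ : ∃ k1, k0 = k1 + 1 := ⟨k0 - 1, by omega⟩
    have h1 : n k ≤ n k1 := by
      rcases eq_or_lt_of_le (by omega : k ≤ k1) with h | h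
      · rw [h]
      · have := n_ratio h; have := n_pos k; linarith
    have h2 : n (k1 + 1) = n k1 * 4 ^ (2 * k1 + 3) := n_succ k1
    have h3 : n k1 * (64 * (L * X)) ≤ n (k1 + 1) := by
      rw [h2]
      apply mul_le_mul_of_nonneg_left _ (n_pos k1).le
      exact hk0.trans (le_of_eq (by congr 1))
    have h4 := hXF x hx
    have h5 : n k * (β * |x|) ≤ n k1 * (5 * L / n (k1 + 1) * X) := by
      apply mul_le_mul h1 _ (by positivity) (n_pos k1).le
      exact mul_le_mul hβ2 h4 (abs_nonneg _) (by positivity)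
    refine h5.trans ?_
    have h6 : n k1 * (5 * L / n (k1 + 1) * X) = 5 * (n k1 * (L * X)) / n (k1 + 1) := by ring
    rw [h6, div_le_iff₀ hn0]
    have : 0 ≤ n k1 * (L * X) := by have := n_pos k1; positivity
    nlinarith
  · obtain ⟨i, rfl⟩ := Nat.exists_eq_add_of_le hk
    obtain ⟨m, hm⟩ := hrec (n (k0 + i) * b i) x hx
    have hnk := n_pos (k0 + i)
    have e1 : (n (k0 + i) * b i + r (n (k0 + i) * b i)) * x = n (k0 + i) * (b (i + 1) * x) := by
      rw [hbs]; field_simp
    rw [e1] at hm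
    have h1 := hdist (i + 1)
    rw [dist_comm, Real.dist_eq] at h1
    refine ⟨m, ?_⟩
    have e2 : n (k0 + i) * (β * x) - m =
        (n (k0 + i) * (b (i + 1) * x) - m) + n (k0 + i) * ((β - b (i + 1)) * x) := by ring
    rw [e2]
    have h2 : |n (k0 + i) * ((β - b (i + 1)) * x)| ≤ 1 / 8 := by
      rw [abs_mul, abs_mul, abs_of_pos hnk]
      have h3 : |β - b (i + 1)| * |x| ≤ 2 * (L / n (k0 + (i + 1))) * X :=
        mul_le_mul h1 (hXF x hx) (abs_nonneg _) (by have := n_pos (k0 + (i + 1)); positivity)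
      have h4 := hrat (k0 + i) (by omega)
      have h5 := n_pos (k0 + i + 1)
      calc n (k0 + i) * (|β - b (i + 1)| * |x|)
          ≤ n (k0 + i) * (2 * (L / n (k0 + (i + 1))) * X) := mul_le_mul_of_nonneg_left h3 hnk.le
        _ = 2 * (n (k0 + i) * (L * X)) / n (k0 + i + 1) := by
          rw [show k0 + (i + 1) = k0 + i + 1 by ring]; ring
        _ ≤ 1 / 8 := by
          rw [div_le_iff₀ h5]
          nlinarith
    calc _ ≤ |n (k0 + i) * (b (i + 1) * x) - m| + |n (k0 + i) * ((β - b (i + 1)) * x)| :=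
          abs_add_le _ _
      _ ≤ 1 / 4 := by linarith

/-! ### no Rajchman measures -/

/-- The Fourier transform of a measure. -/
def ft (μ : Measure ℝ) (ξ : ℝ) : ℂ :=
  ∫ x, Complex.exp (-(2 * Real.pi * x * ξ : ℝ) * Complex.I) ∂μ

/-- The Fourier transform tends to zero at infinity. -/
def Decays (μ : Measure ℝ) : Prop := Tendsto (ft μ) (cocompact ℝ) (𝓝 0)

lemma re_ft (μ : Measure ℝ) [IsFiniteMeasure μ] (ξ : ℝ) :
    (ft μ ξ).re = ∫ x, Real.cos (2 * Real.pi * x * ξ) ∂μ := by
  unfold ft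
  have hint : Integrable (fun x : ℝ => Complex.exp (-(2 * Real.pi * x * ξ : ℝ) * Complex.I)) μ := by
    refine Integrable.of_bound (C := 1) ?_ (Eventually.of_forall fun x => ?_)
    · exact (by fun_prop : Continuous fun x : ℝ =>
        Complex.exp (-(2 * Real.pi * x * ξ : ℝ) * Complex.I)).aestronglyMeasurable
    · rw [← Complex.ofReal_neg, Complex.norm_exp_ofReal_mul_I]
  have h := integral_re hint
  rw [show (∫ x, Complex.exp (-(2 * Real.pi * x * ξ : ℝ) * Complex.I) ∂μ).re =
    RCLike.re (∫ x, Complex.exp (-(2 * Real.pi * x * ξ : ℝ) * Complex.I) ∂μ) from rfl, ← h]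
  congr 1
  funext x
  rw [← Complex.ofReal_neg]
  change (Complex.exp ((-(2 * Real.pi * x * ξ) : ℝ) * Complex.I)).re = _
  rw [Complex.exp_ofReal_mul_I_re, Real.cos_neg]

lemma no_rajchman (μ : Measure ℝ) [IsFiniteMeasure μ] (hμ : μ Eᶜ = 0) (hd : Decays μ) :
    μ = 0 := by
  have hcos : ∀ k, ∀ x ∈ E, 0 ≤ Real.cos (2 * Real.pi * x * n k) := by
    intro k x hx
    obtain ⟨m, hm⟩ := hx k
    have e : 2 * Real.pi * x * n k = 2 * Real.pi * (n k * x - m) + m * (2 * Real.pi) := by ring
    rw [e, Real.cos_add_int_mul_two_pi]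
    apply Real.cos_nonneg_of_mem_Icc
    rw [abs_le] at hm
    constructor <;> nlinarith [Real.pi_pos]
  have hint : ∀ ξ : ℝ, Integrable (fun x : ℝ => Real.cos (2 * Real.pi * x * ξ)) μ := by
    intro ξ
    refine Integrable.of_bound (C := 1) ?_ (Eventually.of_forall fun x => ?_)
    · exact (by fun_prop : Continuous fun x : ℝ => Real.cos (2 * Real.pi * x * ξ)).aestronglyMeasurable
    · exact Real.abs_cos_le_one _
  have hkey : ∀ k, 1 / 2 * μ.real univ - (ft μ (n k)).re + 1 / 2 * (ft μ (2 * n k)).re ≤ 0 := by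
    intro k
    rw [re_ft, re_ft]
    have e : 1 / 2 * μ.real univ - ∫ x, Real.cos (2 * Real.pi * x * n k) ∂μ +
        1 / 2 * ∫ x, Real.cos (2 * Real.pi * x * (2 * n k)) ∂μ =
        ∫ x, (1 / 2 - Real.cos (2 * Real.pi * x * n k) +
          1 / 2 * Real.cos (2 * Real.pi * x * (2 * n k))) ∂μ := by
      have i1 : Integrable (fun x : ℝ => 1 / 2 - Real.cos (2 * Real.pi * x * n k)) μ :=
        (integrable_const _).sub (hint _)
      have i2 : Integrable (fun x : ℝ => 1 / 2 * Real.cos (2 * Real.pi * x * (2 * n k))) μ :=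
        (hint _).const_mul _
      rw [integral_add i1 i2, integral_sub (integrable_const _) (hint _), integral_const_mul,
        integral_const]
      simp; ring
    rw [e]
    apply integral_nonpos_of_ae
    have hE : ∀ᵐ x ∂μ, x ∈ E := by rw [ae_iff]; exact hμ
    filter_upwards [hE] with x hx
    have h1 := hcos k x hx
    have h2 := Real.cos_le_one (2 * Real.pi * x * n k)
    have h3 : Real.cos (2 * Real.pi * x * (2 * n k)) =
        2 * Real.cos (2 * Real.pi * x * n k) ^ 2 - 1 := by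
      rw [← Real.cos_two_mul]; congr 1; ring
    rw [h3]
    simp only [Pi.zero_apply]
    nlinarith
  have l1 : Tendsto (fun k => ft μ (n k)) atTop (𝓝 0) :=
    hd.comp (n_tendsto.mono_right atTop_le_cocompact)
  have l2 : Tendsto (fun k => ft μ (2 * n k)) atTop (𝓝 0) :=
    hd.comp ((n_tendsto.const_mul_atTop (by norm_num : (0 : ℝ) < 2)).mono_right atTop_le_cocompact)
  have l3 : Tendsto (fun k => 1 / 2 * μ.real univ - (ft μ (n k)).re +
      1 / 2 * (ft μ (2 * n k)).re) atTop (𝓝 (1 / 2 * μ.real univ - 0 + 1 / 2 * 0)) := by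
    refine ((tendsto_const_nhds.sub ?_).add (Tendsto.const_mul _ ?_))
    · exact (Complex.continuous_re.tendsto 0).comp l1
    · exact (Complex.continuous_re.tendsto 0).comp l2
  have h4 := le_of_tendsto l3 (Eventually.of_forall hkey)
  have h5 : μ.real univ = 0 := le_antisymm (by linarith) measureReal_nonneg
  rw [measureReal_eq_zero_iff] at h5
  exact Measure.measure_univ_eq_zero.1 h5

/-- `E` contains all finite patterns: for every finite `F ⊆ ℝ` some affine copy
`{a + b x : x ∈ F}`, `b ≠ 0`, of `F` lies in `E`. -/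
def ContainsAllFinitePatterns (E : Set ℝ) : Prop :=
  ∀ F : Set ℝ, F.Finite → ∃ a b : ℝ, b ≠ 0 ∧ (fun x => a + b * x) '' F ⊆ E

/-- There is a perfect set `E ⊆ ℝ` (closed, without isolated points) which contains all finite
patterns and which supports no nonzero finite positive measure whose Fourier transform tends to
zero at infinity. -/
theorem result : ∃ E : Set ℝ, Perfect E ∧ ContainsAllFinitePatterns E ∧
    ∀ μ : Measure ℝ, IsFiniteMeasure μ → μ ≠ 0 → μ.support ⊆ E → ¬ Decays μ := by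
  refine ⟨E, E_perfect, fun F hF => ?_, fun μ hfin hne hsupp hd => ?_⟩
  · obtain ⟨b, hb, h⟩ := pattern F hF
    refine ⟨0, b, hb, ?_⟩
    rintro _ ⟨x, hx, rfl⟩
    simp only [zero_add]
    exact h x hx
  · apply hne
    refine no_rajchman μ ?_ hd
    refine measure_mono_null (compl_subset_compl.2 hsupp) ?_
    exact Measure.measure_compl_support

end

end Pool.Agent.Results.MP_701998_an.PatternsNoRajchman
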